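import Pool.Agent.Helper88.MW.Defs

/-!
# Weyl sums over `F_q[T]` with exponent `p ^ j + 1`: the corank (part FIN)
-/

set_option autoImplicit false

namespace Pool.Agent.Helper91.MW

open Polynomial Module Pool.Agent.Helper88.MW

section lin

variable {K : Type} [Field K] {E : Type} [AddCommGroup E] [Module K E]

theorem A_le (β : E →ₗ[K] E →ₗ[K] K) (V : Submodule K E) (i : ℕ) : A β V i ≤ V := by
  cases i with
  | zero => exact bot_le
  | succ i => exact inf_le_left

theorem A_mono (β : E →ₗ[K] E →ₗ[K] K) (V : Submodule K E) (i : ℕ) :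
    A β V i ≤ A β V (i + 1) := by
  induction i with
  | zero => exact bot_le
  | succ i ih =>
    apply inf_le_inf le_rfl
    exact Submodule.comap_mono (Submodule.map_mono ih)

end lin

/-- pigeonhole -/
theorem small_step (a : ℕ → ℕ) (n k : ℕ) (hk : 0 < k) (ha : ∀ i, a i ≤ n)
    (hmono : ∀ i, a i ≤ a (i + 1)) : ∃ i < k, k * a (i + 1) ≤ k * a i + n := by
  by_contra h
  push Not at h
  have h1 : ∀ m ≤ k, k * a 0 + m * n + m ≤ k * a m := by
    intro m
    induction m with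
    | zero => intro _; simp
    | succ m ih =>
      intro hm
      have h2 := ih (by omega)
      have h3 := h m (by omega)
      have h4 : (m + 1) * n = m * n + n := by ring
      omega
  have h2 := h1 k le_rfl
  have h3 : k * a k ≤ k * n := Nat.mul_le_mul le_rfl (ha k)
  omega

theorem fin_real (P ε : ℝ) (hP : 2 ≤ P) (k n h a a' z z' C1 C2 C3 : ℝ) (hk : 0 < k)
    (hkε : 3 / k ≤ ε) (hn : 0 ≤ n) (hC1 : 0 ≤ C1) (hC2 : 0 ≤ C2) (hC3 : 0 ≤ C3)
    (hmain : 3 * h + 2 * a ≤ n + z + 3 * z' + C1)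
    (hz : P * z ≤ (P - 1) * a + C2) (hz' : P * z' ≤ (P - 1) * a' + C3)
    (hstep : k * a' ≤ k * a + n) (hdim : 2 * a ≤ n + z) :
    h ≤ ((P - 1) / (P + 1) + ε) * n + (C1 + 3 * C2 + C3) := by
  have hP0 : 0 < P := by linarith
  have e1 : z ≤ ((P - 1) * a + C2) / P := by
    rw [le_div_iff₀ hP0]; linarith
  have e2 : z' ≤ ((P - 1) * a' + C3) / P := by
    rw [le_div_iff₀ hP0]; linarith
  have e3 : a' ≤ a + n / k := by
    have : a' ≤ (k * a + n) / k := by
      rw [le_div_iff₀ hk]; linarith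
    have h2 : (k * a + n) / k = a + n / k := by field_simp
    linarith
  -- a ≤ P/(P+1) (n + C2/P)
  have e4 : (P + 1) * a ≤ P * n + C2 := by nlinarith
  have e5 : n / k ≤ (ε / 3) * n := by
    have : n / k = (3 / k) / 3 * n := by ring
    rw [this]
    apply mul_le_mul_of_nonneg_right _ hn
    linarith
  have e6 : (P - 1) * a' ≤ (P - 1) * (a + (ε / 3) * n) := by
    apply mul_le_mul_of_nonneg_left _ (by linarith)
    linarith
  -- 3 P h ≤ P n + (2P-4) a + (P-1) ε n + ...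
  have e7 : 3 * P * h ≤ P * n + (2 * P - 4) * a + (P - 1) * ε * n + P * C1 + C2 + 3 * C3 := by
    have h1 : P * (3 * h + 2 * a) ≤ P * (n + z + 3 * z' + C1) :=
      mul_le_mul_of_nonneg_left hmain hP0.le
    nlinarith
  have e8 : (2 * P - 4) * ((P + 1) * a) ≤ (2 * P - 4) * (P * n + C2) :=
    mul_le_mul_of_nonneg_left e4 (by linarith)
  -- multiply e7 by (P+1)
  have e9 : 3 * P * (P + 1) * h ≤ 3 * P * (P - 1) * n + (P + 1) * (P - 1) * ε * n +
      (P + 1) * (P * C1 + C2 + 3 * C3) + (2 * P - 4) * C2 := by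
    have h1 : (P + 1) * (3 * P * h) ≤
        (P + 1) * (P * n + (2 * P - 4) * a + (P - 1) * ε * n + P * C1 + C2 + 3 * C3) :=
      mul_le_mul_of_nonneg_left e7 (by linarith)
    nlinarith
  have hε : 0 ≤ ε := le_trans (by positivity) hkε
  have e10 : h ≤ (3 * P * (P - 1) * n + (P + 1) * (P - 1) * ε * n +
      (P + 1) * (P * C1 + C2 + 3 * C3) + (2 * P - 4) * C2) / (3 * P * (P + 1)) := by
    rw [le_div_iff₀ (by positivity)]
    linarith
  refine e10.trans ?_
  rw [div_le_iff₀ (by positivity)]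
  have e11 : ((P - 1) / (P + 1) + ε) * n * (3 * P * (P + 1)) =
      3 * P * (P - 1) * n + 3 * P * (P + 1) * ε * n := by
    field_simp
  have e12 : 0 ≤ ε * n := mul_nonneg hε hn
  have e13 : (P + 1) * (P - 1) * ε * n ≤ 3 * P * (P + 1) * ε * n := by
    have h1 : (P + 1) * (P - 1) * (ε * n) ≤ 3 * P * (P + 1) * (ε * n) := by
      apply mul_le_mul_of_nonneg_right _ e12
      nlinarith
    nlinarith
  have e14 : (P + 1) * (P * C1 + C2 + 3 * C3) + (2 * P - 4) * C2 ≤
      (C1 + 3 * C2 + C3) * (3 * P * (P + 1)) := by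
    have g1 : (P + 1) * (P * C1) ≤ C1 * (3 * P * (P + 1)) := by
      nlinarith [mul_nonneg (mul_nonneg hP0.le (by linarith : (0 : ℝ) ≤ P + 1)) hC1]
    have g2 : (P + 1) * C2 + (2 * P - 4) * C2 ≤ 3 * C2 * (3 * P * (P + 1)) := by
      have : (P + 1) + (2 * P - 4) ≤ 3 * (3 * P * (P + 1)) := by nlinarith
      nlinarith
    have g3 : (P + 1) * (3 * C3) ≤ C3 * (3 * P * (P + 1)) := by
      have : (P + 1) * 3 ≤ 3 * P * (P + 1) := by nlinarith
      nlinarith
    nlinarith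
  have e15 : (((P - 1) / (P + 1) + ε) * n + (C1 + 3 * C2 + C3)) * (3 * P * (P + 1)) =
      ((P - 1) / (P + 1) + ε) * n * (3 * P * (P + 1)) +
        (C1 + 3 * C2 + C3) * (3 * P * (P + 1)) := by ring
  rw [e15, e11]
  linarith

theorem fin {p : ℕ} [Fact p.Prime] {F : Type} [Field F] [Fintype F] [Algebra (ZMod p) F] (j : ℕ)
    (hj : 1 ≤ j)
    (pb_fin : ∀ d : ℕ, FiniteDimensional (ZMod p) (Vd p F d))
    (pb_finrank : ∀ d : ℕ, finrank (ZMod p) (Vd p F d) = finrank (ZMod p) F * d)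
    (la_iso : ∀ (β : F[X] →ₗ[ZMod p] F[X] →ₗ[ZMod p] ZMod p) (V : Submodule (ZMod p) F[X]) (i : ℕ),
      A β V i ≤ O β V (A β V i))
    (la_dim : ∀ (β : F[X] →ₗ[ZMod p] F[X] →ₗ[ZMod p] ZMod p) (V : Submodule (ZMod p) F[X])
      [FiniteDimensional (ZMod p) V] (i : ℕ),
      finrank (ZMod p) (O β V (A β V i)) + finrank (ZMod p) (A β V i) =
      finrank (ZMod p) V + finrank (ZMod p) (A β V i ⊓ H β V : Submodule (ZMod p) F[X]))
    (zg : ∀ i : ℕ, ∃ C : ℕ, ∀ (l : F[X] →ₗ[ZMod p] ZMod p) (d : ℕ),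
      Mi l d → p ^ j * finrank (ZMod p) (A (bet j l) (Vd p F d) i ⊓ H (bet j l) (Vd p F d) :
        Submodule _ _) ≤
      (p ^ j - 1) * finrank (ZMod p) (A (bet j l) (Vd p F d) i) + C)
    (main : ∀ i : ℕ, ∃ C : ℕ, ∀ (l : F[X] →ₗ[ZMod p] ZMod p) (d : ℕ),
      3 * finrank (ZMod p) (H (bet j l) (Vd p F d)) +
        2 * finrank (ZMod p) (A (bet j l) (Vd p F d) i) ≤
      finrank (ZMod p) (Vd p F d) +
        finrank (ZMod p) (A (bet j l) (Vd p F d) i ⊓ H (bet j l) (Vd p F d) : Submodule _ _) +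
        3 * finrank (ZMod p) (A (bet j l) (Vd p F d) (i + 1) ⊓ H (bet j l) (Vd p F d) :
          Submodule _ _) + C)
    (ε : ℝ) (hε : 0 < ε) : ∃ C : ℝ,
    ∀ (l : F[X] →ₗ[ZMod p] ZMod p) (d : ℕ), Mi l d →
      (finrank (ZMod p) (H (bet j l) (Vd p F d)) : ℝ) ≤
        (((p : ℝ) ^ j - 1) / ((p : ℝ) ^ j + 1) + ε) * (finrank (ZMod p) F * d) + C := by
  have hp : 2 ≤ p := (Fact.out : p.Prime).two_le
  have hP : 2 ≤ p ^ j := hp.trans (Nat.le_self_pow (by omega) p)
  choose Cm hCm using main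
  choose Cz hCz using zg
  obtain ⟨k, hk⟩ := exists_nat_gt (3 / ε)
  have hk0 : 0 < (k : ℝ) := lt_trans (by positivity) hk
  have hk0' : 0 < k := by exact_mod_cast hk0
  have hkε : 3 / (k : ℝ) ≤ ε := by
    rw [div_le_iff₀ hk0]
    rw [div_lt_iff₀ hε] at hk
    linarith
  -- uniform constants
  set M : ℕ := ∑ i ∈ Finset.range (k + 2), (Cm i + Cz i) with hM
  have hCle : ∀ i < k + 2, Cm i ≤ M ∧ Cz i ≤ M := by
    intro i hi
    have h1 : Cm i + Cz i ≤ M :=
      Finset.single_le_sum (f := fun i => Cm i + Cz i) (fun _ _ => Nat.zero_le _)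
        (Finset.mem_range.2 hi)
    omega
  refine ⟨(M : ℝ) + 3 * M + M, ?_⟩
  intro l d hMi
  have hfin := pb_fin d
  set V := Vd p F d with hV
  set β := bet (p := p) j l with hβ
  set n := finrank (ZMod p) V with hn
  have hAfin : ∀ i, FiniteDimensional (ZMod p) (A β V i) := fun i =>
    Submodule.finiteDimensional_of_le (A_le β V i)
  have hOfin : ∀ i, FiniteDimensional (ZMod p) (O β V (A β V i)) := fun i =>
    Submodule.finiteDimensional_of_le (show O β V (A β V i) ≤ V from fun v hv => hv.1)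
  obtain ⟨i, hik, hstep⟩ := small_step (fun i => finrank (ZMod p) (A β V i)) n k hk0'
    (fun i => Submodule.finrank_mono (A_le β V i)) (fun i => by
      have := hAfin (i + 1)
      exact Submodule.finrank_mono (A_mono β V i))
  have h1 := hCm i l d
  have h2 := hCz i l d hMi
  have h3 := hCz (i + 1) l d hMi
  rw [← hV, ← hβ] at h1 h2 h3
  have h4 := la_dim β V i
  have h5 : finrank (ZMod p) (A β V i) ≤ finrank (ZMod p) (O β V (A β V i)) := by
    have := hOfin i
    exact Submodule.finrank_mono (la_iso β V i)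
  obtain ⟨c1, c2⟩ := hCle i (by omega)
  obtain ⟨-, c3⟩ := hCle (i + 1) (by omega)
  set h := finrank (ZMod p) (H β V) with hh
  set a := finrank (ZMod p) (A β V i) with ha
  set a' := finrank (ZMod p) (A β V (i + 1)) with ha'
  set z := finrank (ZMod p) (A β V i ⊓ H β V : Submodule (ZMod p) F[X]) with hz
  set z' := finrank (ZMod p) (A β V (i + 1) ⊓ H β V : Submodule (ZMod p) F[X]) with hz'
  have hnr : (n : ℝ) = finrank (ZMod p) F * d := by
    rw [hn, hV, pb_finrank d]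
    push_cast
    ring
  rw [← hnr]
  have hPr : ((p ^ j - 1 : ℕ) : ℝ) = (p : ℝ) ^ j - 1 := by
    rw [Nat.cast_sub (by omega)]
    push_cast
    ring
  apply fin_real ((p : ℝ) ^ j) ε (by exact_mod_cast hP) k n h a a' z z' M M M hk0 hkε
    (by positivity) (by positivity) (by positivity) (by positivity)
  · have h6 : 3 * h + 2 * a ≤ n + z + 3 * z' + M := by omega
    exact_mod_cast h6
  · have h6 : p ^ j * z ≤ (p ^ j - 1) * a + M := by omega
    have h7 : ((p ^ j * z : ℕ) : ℝ) ≤ (((p ^ j - 1) * a + M : ℕ) : ℝ) := by exact_mod_cast h6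
    rw [Nat.cast_mul, Nat.cast_add, Nat.cast_mul, hPr, Nat.cast_pow] at h7
    exact h7
  · have h6 : p ^ j * z' ≤ (p ^ j - 1) * a' + M := by omega
    have h7 : ((p ^ j * z' : ℕ) : ℝ) ≤ (((p ^ j - 1) * a' + M : ℕ) : ℝ) := by exact_mod_cast h6
    rw [Nat.cast_mul, Nat.cast_add, Nat.cast_mul, hPr, Nat.cast_pow] at h7
    exact h7
  · exact_mod_cast hstep
  · have h6 : 2 * a ≤ n + z := by omega
    exact_mod_cast h6

end Pool.Agent.Helper91.MW
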